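import Mathlib
import Pool.Agent.Q132.FEq.Main

namespace Pool.Agent.Results.MP_12983e_an.AllSolutions

/-- All continuous solutions of `f (x + f x) = f x + f (f x)`: the linear maps and the maps that
are linear on each half-line with nonnegative slopes. -/
theorem result (f : ℝ → ℝ) (hf : Continuous f) :
    (∀ x, f (x + f x) = f x + f (f x)) ↔
      (∃ a : ℝ, ∀ x, f x = a * x) ∨
      (∃ a b : ℝ, 0 ≤ a ∧ 0 ≤ b ∧ ∀ x, f x = a * max x 0 + b * min x 0) := by
  constructor
  · intro h
    rcases (Pool.Agent.Q132.FEq.Sol.mk hf h).classify with h1 | ⟨a, b, ha, hb, h1, h2⟩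
    · exact Or.inl h1
    · refine Or.inr ⟨a, b, ha, hb, fun x => ?_⟩
      rcases le_total 0 x with hx | hx
      · rw [h1 x hx, max_eq_left hx, min_eq_right hx]; ring
      · rw [h2 x hx, max_eq_right hx, min_eq_left hx]; ring
  · rintro (⟨a, ha⟩ | ⟨a, b, ha, hb, h⟩) x
    · rw [ha, ha (f x), ha x]; ring
    · have h1 : ∀ x, 0 ≤ x → f x = a * x := fun x hx => by
        rw [h x, max_eq_left hx, min_eq_right hx]; ring
      have h2 : ∀ x, x ≤ 0 → f x = b * x := fun x hx => by
        rw [h x, max_eq_right hx, min_eq_left hx]; ring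
      rcases le_total 0 x with hx | hx
      · have h3 : 0 ≤ a * x := mul_nonneg ha hx
        rw [h1 x hx, h1 _ (by linarith), h1 _ h3]; ring
      · have h3 : b * x ≤ 0 := mul_nonpos_of_nonneg_of_nonpos hb hx
        rw [h2 x hx, h2 _ (by linarith), h2 _ h3]; ring

end Pool.Agent.Results.MP_12983e_an.AllSolutions
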